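import Pool.Agent.Q127.DJ.Stm

/-!
# Project DJ: INN, properties of the innovation
-/

set_option autoImplicit false

namespace Pool.Agent.Q110.DJ.Inn

open MeasureTheory Filter Topology
open Pool.Agent.Q127.DJ

theorem measurable_I {m : ℕ} (f : ℕ → Fin m) (a : Fin m) (s : ℕ) : Measurable (I f a s) := by
  unfold I
  refine Measurable.ite ?_ measurable_const measurable_const
  have h : Measurable (fun x : ℕ → ℕ => f (x s)) := (measurable_of_countable f).comp (measurable_pi_apply s)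
  exact h (measurableSet_singleton a)

theorem I_nonneg {m : ℕ} (f : ℕ → Fin m) (a : Fin m) (s : ℕ) (x : ℕ → ℕ) : 0 ≤ I f a s x := by
  unfold I; split_ifs <;> norm_num

theorem I_le {m : ℕ} (f : ℕ → Fin m) (a : Fin m) (s : ℕ) (x : ℕ → ℕ) : I f a s x ≤ 1 := by
  unfold I; split_ifs <;> norm_num

theorem bm_I {m : ℕ} (f : ℕ → Fin m) (a : Fin m) (s : ℕ) : BM 1 (I f a s) :=
  ⟨measurable_I f a s, fun x => by rw [abs_of_nonneg (I_nonneg f a s x)]; exact I_le f a s x⟩

theorem dep_I {m : ℕ} (f : ℕ → Fin m) (a : Fin m) (t : ℕ) : Dep f (t + 1) (I f a t) := by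
  intro x y h
  have h1 : f (x t) = f (y t) := congrFun h (Fin.last t)
  unfold I
  rw [h1]

theorem integrable_BM {μ : Measure (ℕ → ℕ)} [IsProbabilityMeasure μ] {C : ℝ} {φ : (ℕ → ℕ) → ℝ}
    (h : BM C φ) : Integrable φ μ :=
  Integrable.of_bound h.1.aestronglyMeasurable C (Eventually.of_forall fun x => by
    rw [Real.norm_eq_abs]; exact h.2 x)

theorem BM.mul' {C C' : ℝ} {φ ψ : (ℕ → ℕ) → ℝ} (h : BM C φ) (h' : BM C' ψ) :
    BM (C * C') (fun x => φ x * ψ x) :=
  ⟨h.1.mul h'.1, fun x => by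
    rw [abs_mul]
    exact mul_le_mul (h.2 x) (h'.2 x) (abs_nonneg _) ((abs_nonneg _).trans (h.2 x))⟩

theorem E_nonneg {μ : Measure (ℕ → ℕ)} [IsProbabilityMeasure μ] {m : ℕ} (f : ℕ → Fin m) (a : Fin m) (s t : ℕ)
    (x : ℕ → ℕ) : 0 ≤ E μ f t (I f a s) x := by
  unfold E
  exact div_nonneg (integral_nonneg fun y => I_nonneg f a s y) measureReal_nonneg

theorem E_le {μ : Measure (ℕ → ℕ)} [IsProbabilityMeasure μ] {m : ℕ} (f : ℕ → Fin m) (a : Fin m) (s t : ℕ)
    (x : ℕ → ℕ) : E μ f t (I f a s) x ≤ 1 := by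
  unfold E
  refine div_le_one_of_le₀ ?_ measureReal_nonneg
  calc ∫ y in cyl f t (nm f t x), I f a s y ∂μ ≤ ∫ y in cyl f t (nm f t x), (1 : ℝ) ∂μ :=
        integral_mono (integrable_BM (bm_I f a s)).integrableOn (integrable_const _) fun y => I_le f a s y
    _ = μ.real (cyl f t (nm f t x)) := by simp [Measure.real]

theorem Dep.mono' {m : ℕ} {f : ℕ → Fin m} {t : ℕ} {ψ : (ℕ → ℕ) → ℝ} (h : Dep f t ψ) : Dep f (t + 1) ψ := by
  intro x y hxy
  refine h x y ?_
  funext i
  exact congrFun hxy i.castSucc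

/-- INN. -/
theorem inn (h1 : S_ce1) (h2 : S_ce2) : S_inn := by
  intro μ _ m f a t
  have hE := h1 μ m f t 1 (I f a t) zero_le_one (bm_I f a t)
  have hg : BM 1 (g μ f a t) := by
    refine ⟨(measurable_I f a t).sub hE.2.1, fun x => ?_⟩
    have e1 := I_nonneg f a t x
    have e2 := I_le f a t x
    have e3 := E_nonneg (μ := μ) f a t t x
    have e4 := E_le (μ := μ) f a t t x
    unfold g
    rw [abs_le]
    constructor <;> linarith
  have ho : ∀ (C : ℝ) (ψ : (ℕ → ℕ) → ℝ), BM C ψ → Dep f t ψ → ∫ x, ψ x * g μ f a t x ∂μ = 0 := by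
    intro C ψ hψ hd
    have e := h2 μ m f t 1 C (I f a t) ψ (bm_I f a t) hψ hd
    have i1 : Integrable (fun x => ψ x * I f a t x) μ := integrable_BM (BM.mul' hψ (bm_I f a t))
    have i2 : Integrable (fun x => ψ x * E μ f t (I f a t) x) μ := integrable_BM (BM.mul' hψ hE.2)
    calc ∫ x, ψ x * g μ f a t x ∂μ = ∫ x, (ψ x * I f a t x - ψ x * E μ f t (I f a t) x) ∂μ := by
          refine integral_congr_ae (Eventually.of_forall fun x => ?_)
          simp only [g]
          ring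
      _ = 0 := by rw [integral_sub i1 i2, e, sub_self]
  refine ⟨?_, hg, ho, ?_⟩
  · intro x y hxy
    unfold g
    rw [dep_I f a t x y hxy, Dep.mono' hE.1 x y hxy]
  · have e := ho 1 _ hE.2 hE.1
    have i1 : Integrable (fun x => (g μ f a t x) ^ 2) μ := by
      have := integrable_BM (μ := μ) (BM.mul' hg hg)
      refine this.congr (Eventually.of_forall fun x => ?_)
      simp only [sq]
    have i2 : Integrable (fun x => E μ f t (I f a t) x * g μ f a t x) μ := integrable_BM (BM.mul' hE.2 hg)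
    calc ∫ x, g μ f a t x * I f a t x ∂μ =
        ∫ x, ((g μ f a t x) ^ 2 + E μ f t (I f a t) x * g μ f a t x) ∂μ := by
          refine integral_congr_ae (Eventually.of_forall fun x => ?_)
          simp only [g]
          ring
      _ = ∫ x, (g μ f a t x) ^ 2 ∂μ := by rw [integral_add i1 i2, e, add_zero]

end Pool.Agent.Q110.DJ.Inn
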